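import Mathlib
import Pool.Agent.X213.BalleanRaw

set_option autoImplicit false

open Pool.Agent.X213

namespace Pool.Agent.Results.MP_34945e_gt.ProductBoBounded

universe u v

/-- A ballean. -/
structure Ballean (X : Type u) where
  /-- the family of entourages -/
  ent : Set (Set (X × X))
  diag_sub : ∀ E ∈ ent, ∀ x : X, (x, x) ∈ E
  comp_inv : ∀ E ∈ ent, ∀ F ∈ ent, ∃ D ∈ ent, {p : X × X | ∃ y, (p.1, y) ∈ E ∧ (p.2, y) ∈ F} ⊆ D
  cover : ⋃₀ ent = Set.univ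

/-- The ball `E[x]`. -/
def ball {X : Type u} (E : Set (X × X)) (x : X) : Set X := {y | (x, y) ∈ E}

/-- Bounded sets. -/
def Ballean.Bounded {X : Type u} (b : Ballean X) (B : Set X) : Prop :=
  ∃ E ∈ b.ent, ∃ x, B ⊆ ball E x

/-- The product of two entourages. -/
def box {X : Type u} {Y : Type v} (E : Set (X × X)) (F : Set (Y × Y)) :
    Set ((X × Y) × (X × Y)) := {q | (q.1.1, q.2.1) ∈ E ∧ (q.1.2, q.2.2) ∈ F}

/-- The product ballean. -/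
def Ballean.prod {X : Type u} {Y : Type v} (b : Ballean X) (c : Ballean Y) :
    Ballean (X × Y) where
  ent := {G | ∃ E ∈ b.ent, ∃ F ∈ c.ent, G = box E F}
  diag_sub := by
    rintro _ ⟨E, hE, F, hF, rfl⟩ x
    exact ⟨b.diag_sub E hE _, c.diag_sub F hF _⟩
  comp_inv := by
    rintro _ ⟨E, hE, F, hF, rfl⟩ _ ⟨E', hE', F', hF', rfl⟩
    obtain ⟨D, hD, h1⟩ := b.comp_inv E hE E' hE'
    obtain ⟨D', hD', h2⟩ := c.comp_inv F hF F' hF'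
    refine ⟨_, ⟨D, hD, D', hD', rfl⟩, ?_⟩
    rintro p ⟨y, h3, h4⟩
    exact ⟨h1 ⟨y.1, h3.1, h4.1⟩, h2 ⟨y.2, h3.2, h4.2⟩⟩
  cover := by
    rw [Set.eq_univ_iff_forall]
    rintro ⟨⟨x, y⟩, ⟨x', y'⟩⟩
    obtain ⟨E, hE, h1⟩ : ((x, x') : X × X) ∈ ⋃₀ b.ent := by rw [b.cover]; trivial
    obtain ⟨F, hF, h2⟩ : ((y, y') : Y × Y) ∈ ⋃₀ c.ent := by rw [c.cover]; trivial
    exact ⟨box E F, ⟨E, hE, F, hF, rfl⟩, h1, h2⟩

/-- Boundedly oscillating functions. -/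
def BoundedlyOscillating {X : Type u} (b : Ballean X) (f : X → ℝ) : Prop :=
  ∃ C : ℝ, 0 < C ∧ ∀ E ∈ b.ent, ∃ B, b.Bounded B ∧
    ∀ x ∉ B, Metric.ediam (f '' ball E x) < ENNReal.ofReal C

/-- Bo-bounded balleans. -/
def BoBounded {X : Type u} (b : Ballean X) : Prop :=
  ∀ f : X → ℝ, BoundedlyOscillating b f → ∃ B, b.Bounded B ∧ ∃ M : ℝ, ∀ x ∉ B, |f x| ≤ M

theorem Ballean.isBase {X : Type u} (b : Ballean X) : Bal.IsBase b.ent where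
  diag := b.diag_sub
  comp_inv := by
    intro E hE F hF
    obtain ⟨D, hD, h⟩ := b.comp_inv E hE F hF
    exact ⟨D, hD, fun x y z h1 h2 => h ⟨y, h1, h2⟩⟩
  cover := by
    intro x y
    have h : ((x, y) : X × X) ∈ ⋃₀ b.ent := by rw [b.cover]; trivial
    exact h

theorem ent_nonempty {X : Type u} {b : Ballean X} (hb : BoBounded b) : b.ent.Nonempty := by
  by_contra hno
  rw [Set.not_nonempty_iff_eq_empty] at hno
  obtain ⟨B, ⟨E, hE, -⟩, -⟩ := hb (fun _ => 0) ⟨1, one_pos, fun E hE => by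
    rw [hno] at hE; exact absurd hE (Set.notMem_empty E)⟩
  rw [hno] at hE
  exact Set.notMem_empty E hE

/-- The product of any two bo-bounded balleans is bo-bounded. -/
theorem result (X : Type u) (Y : Type v) (b : Ballean X) (c : Ballean Y)
    (hb : BoBounded b) (hc : BoBounded c) : BoBounded (b.prod c) := by
  rintro f ⟨C, hC, hf⟩
  obtain ⟨E₁, hE₁⟩ := ent_nonempty hb
  obtain ⟨F₁, hF₁⟩ := ent_nonempty hc
  obtain ⟨-, ⟨-, -, p₁, -⟩, -⟩ := hf _ ⟨E₁, hE₁, F₁, hF₁, rfl⟩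
  -- the variation of `f` on balls
  have hv : ∀ E ∈ b.ent, ∀ F ∈ c.ent, ∃ D, b.Bounded D ∧ ∃ D', c.Bounded D' ∧
      ∀ x y, ¬ (x ∈ D ∧ y ∈ D') → ∀ a ∈ ball E x, ∀ a' ∈ ball E x, ∀ d ∈ ball F y,
      ∀ d' ∈ ball F y, |f (a, d) - f (a', d')| ≤ C := by
    intro E hE F hF
    obtain ⟨B, ⟨_, ⟨G, hG, H, hH, rfl⟩, p, hp⟩, h⟩ := hf _ ⟨E, hE, F, hF, rfl⟩
    refine ⟨ball G p.1, ⟨G, hG, p.1, subset_rfl⟩, ball H p.2, ⟨H, hH, p.2, subset_rfl⟩, ?_⟩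
    intro x y hxy a ha a' ha' d hd d' hd'
    exact Bal.abs_le_of_ediam hC.le (h (x, y) (fun hB => hxy (hp hB))).le ⟨(a, d), ⟨ha, hd⟩, rfl⟩
      ⟨(a', d'), ⟨ha', hd'⟩, rfl⟩
  have hC1 : (0 : ℝ) < C + 1 := by linarith
  obtain ⟨B, hB, B', hB', M, hM⟩ := Bal.raw_main b.isBase c.isBase p₁.1 p₁.2
    (fun x y => f (x, y)) (by
      intro E hE F hF
      obtain ⟨D, hD, D', hD', h⟩ := hv E hE F hF
      exact ⟨D, hD, D', hD', C, h⟩)
    (by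
      intro φ hφ
      apply hb φ
      refine ⟨C + 1, hC1, fun E hE => ?_⟩
      obtain ⟨D, hD, D', -, h⟩ := hv E hE F₁ hF₁
      refine ⟨D, hD, fun x hx => lt_of_le_of_lt (Bal.ediam_le_of (c := C) ?_)
        ((ENNReal.ofReal_lt_ofReal_iff hC1).mpr (by linarith))⟩
      rintro _ ⟨a, ha, rfl⟩ _ ⟨a', ha', rfl⟩
      exact hφ a a' C hC.le fun y => h x y (fun hc => hx hc.1) a ha a' ha' y
        (c.diag_sub F₁ hF₁ y) y (c.diag_sub F₁ hF₁ y))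
    (by
      intro φ hφ
      apply hc φ
      refine ⟨C + 1, hC1, fun F hF => ?_⟩
      obtain ⟨D, -, D', hD', h⟩ := hv E₁ hE₁ F hF
      refine ⟨D', hD', fun y hy => lt_of_le_of_lt (Bal.ediam_le_of (c := C) ?_)
        ((ENNReal.ofReal_lt_ofReal_iff hC1).mpr (by linarith))⟩
      rintro _ ⟨a, ha, rfl⟩ _ ⟨a', ha', rfl⟩
      exact hφ a a' C hC.le fun x => h x y (fun hc => hy hc.2) x
        (b.diag_sub E₁ hE₁ x) x (b.diag_sub E₁ hE₁ x) a ha a' ha')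
  obtain ⟨E, hE, x, hx⟩ := hB
  obtain ⟨F, hF, y, hy⟩ := hB'
  refine ⟨{p | p.1 ∈ B ∧ p.2 ∈ B'}, ⟨_, ⟨E, hE, F, hF, rfl⟩, (x, y), ?_⟩, M, ?_⟩
  · intro p hp
    exact ⟨hx hp.1, hy hp.2⟩
  · intro p hp
    exact hM p.1 p.2 hp

end Pool.Agent.Results.MP_34945e_gt.ProductBoBounded
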